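import Pool.Agent.H752.NX.Stubs

/-!
# X2: compactness
-/

namespace Pool.Agent.H752.NX

open Pool.Agent.NPC Pool.Agent.H620R2.Gauge Pool.Agent.H752.GE Finset

/-- a property that depends on finitely many strings is closed -/
theorem isClosed_of_finite {P : Oracle → Prop} {F : Set (List Bool)} (hF : F.Finite)
    (h : ∀ A A' : Oracle, (∀ u ∈ F, A u = A' u) → (P A ↔ P A')) :
    IsClosed {A : Oracle | P A} := by
  rw [← isOpen_compl_iff, isOpen_iff_forall_mem_open]
  intro A hA
  refine ⟨⋂ u ∈ F, {A' : Oracle | A' u = A u}, ?_, ?_, ?_⟩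
  · intro A' hA' hP
    apply hA
    have hA2 : ∀ u ∈ F, A' u = A u := by
      intro u hu
      simpa using Set.mem_iInter₂.1 hA' u hu
    exact (h A' A hA2).1 hP
  · refine hF.isOpen_biInter fun u _ => ?_
    have : {A' : Oracle | A' u = A u} = (fun A' : Oracle => A' u) ⁻¹' {A u} := rfl
    rw [this]
    exact (isOpen_discrete _).preimage (continuous_apply u)
  · simp

theorem finite_length (n : ℕ) : {y : List Bool | y.length = n}.Finite :=
  List.finite_length_eq Bool n

theorem t_cpt : St_cpt := by
  intro I l r pos Acc hAcc B hfin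
  have hKc : IsClosed {A : Oracle | ∀ u, (∀ i y z, u ≠ pos i y z) → A u = B u} := by
    have : {A : Oracle | ∀ u, (∀ i y z, u ≠ pos i y z) → A u = B u} =
        ⋂ u, {A : Oracle | (∀ i y z, u ≠ pos i y z) → A u = B u} := by
      ext A; simp
    rw [this]
    refine isClosed_iInter fun u => ?_
    refine isClosed_of_finite (F := {u}) (Set.finite_singleton u) ?_
    intro A A' h
    have := h u rfl
    simp [this]
  have hcl : ∀ i, IsClosed {A : Oracle | Req l r pos Acc i A} := by
    intro i
    obtain ⟨F, hF⟩ := hAcc i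
    have hfin2 : ((fun p : List Bool × List Bool => pos i p.1 p.2) ''
        ({y : List Bool | y.length = l i} ×ˢ {z : List Bool | z.length = r i})).Finite :=
      ((finite_length _).prod (finite_length _)).image _
    refine isClosed_of_finite (F := (F : Set (List Bool)) ∪
      (fun p : List Bool × List Bool => pos i p.1 p.2) ''
        ({y : List Bool | y.length = l i} ×ˢ {z : List Bool | z.length = r i}))
      (F.finite_toSet.union hfin2) ?_
    intro A A' h
    have h1 : Acc i A ↔ Acc i A' := hF A A' fun u hu => h u (Or.inl hu)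
    have h2 : ∀ y : List Bool, y.length = l i → (On r pos i y A ↔ On r pos i y A') := by
      intro y hy
      unfold On
      constructor
      · rintro ⟨z, hz, hA⟩
        refine ⟨z, hz, ?_⟩
        rw [← h _ (Or.inr ⟨(y, z), ⟨hy, hz⟩, rfl⟩)]
        exact hA
      · rintro ⟨z, hz, hA⟩
        refine ⟨z, hz, ?_⟩
        rw [h _ (Or.inr ⟨(y, z), ⟨hy, hz⟩, rfl⟩)]
        exact hA
    unfold Req
    constructor
    · rintro ⟨t, ht, h3, h4, h5⟩
      refine ⟨t, ht, ?_, ?_, ?_⟩
      · rwa [← h2 t ht]
      · intro y hy hv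
        rw [← h2 y hy]
        exact h4 y hy hv
      · rw [← h1]; exact h5
    · rintro ⟨t, ht, h3, h4, h5⟩
      refine ⟨t, ht, ?_, ?_, ?_⟩
      · rwa [h2 t ht]
      · intro y hy hv
        rw [h2 y hy]
        exact h4 y hy hv
      · rw [h1]; exact h5
  have hne := IsCompact.inter_iInter_nonempty hKc.isCompact
    (fun i => {A : Oracle | Req l r pos Acc i A}) hcl (by
      intro S
      obtain ⟨A, hA1, hA2⟩ := hfin S
      refine ⟨A, hA1, ?_⟩
      simp only [Set.mem_iInter, Set.mem_ofPred_eq]
      exact hA2)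
  obtain ⟨A, hA1, hA2⟩ := hne
  refine ⟨A, hA1, ?_⟩
  intro i
  exact Set.mem_iInter.1 hA2 i

end Pool.Agent.H752.NX
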