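import Pool.Agent.H752.NX.Stubs
import Pool.Agent.H620R2.GaugeX.X5
import Pool.Agent.H620R2.GaugeR.R8

/-!
# X8: many oracles with `NEXP` contained in `P^NP`
-/

namespace Pool.Agent.H752.NX

open Pool.Agent.NPC Pool.Agent.H620R2.Gauge Pool.Agent.H752.GE Finset MeasureTheory

open Classical in
theorem t_nn (h4 : St_phi) (h7 : St_pnp) : St_nn := by
  intro f hf
  obtain ⟨g, S, hg, hΦ⟩ := h4
  obtain ⟨K, hK⟩ := exists_const hf
  set R : ℕ → Polynomial ℕ := fun e => (Polynomial.X + Polynomial.C (e + 1)) ^ K with hR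
  have hRe : ∀ e n, (n + e + 1) ^ K ≤ (R e).eval n := by
    intro e n
    rw [hR]
    simp only [Polynomial.eval_pow, Polynomial.eval_add, Polynomial.eval_X, Polynomial.eval_C]
    rw [add_assoc]
  obtain ⟨c, hc⟩ := hK R hRe
  obtain ⟨Φ, hΦ1, hΦ2⟩ := hΦ R
  refine not_null_of f Set.univ (by rw [measure_univ]; exact one_pos) Φ
    {y : List Bool | ∃ e z, y = code R e z} ?_ c hc _ ?_
  · intro B y hy
    exact hΦ1 B y fun e z h => hy ⟨e, z, h⟩
  · intro B _
    show ∀ L, GE.IsNEXP (Φ B) L → IsPNP (Φ B) L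
    rintro L ⟨V, p, ⟨M, hM⟩, hV⟩
    obtain ⟨e, he⟩ := hg (M, p)
    have h1 := h7 R S (AccX g) e (Φ B) (fun x => hΦ2 B (e, x))
    have h2 : L = {x | AccX g (e, x) (Φ B)} := by
      ext x
      rw [hV x]
      simp only [Set.mem_ofPred_eq, AccX, he, LV, hM, Option.some.injEq]
    rw [h2]
    exact h1

end Pool.Agent.H752.NX
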